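import Mathlib

/-!
# Distance-cospectral mates of distance-regular graphs (MP_08245e): definitions
-/

namespace Pool.Agent.R784.DC

/-- `G` is distance-regular: it is connected and the numbers of neighbours of `y` at distance
`d(x,y) + 1` and `d(x,y) - 1` from `x` depend only on `d(x,y)`. -/
def DistanceRegular {V : Type} (G : SimpleGraph V) : Prop :=
  G.Connected ∧ ∃ b c : ℕ → ℕ, ∀ x y : V,
    {z | G.Adj y z ∧ G.dist x z = G.dist x y + 1}.ncard = b (G.dist x y) ∧
    {z | G.Adj y z ∧ G.dist x z + 1 = G.dist x y}.ncard = c (G.dist x y)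

/-- The distance matrix. -/
noncomputable def distMat {V : Type} (G : SimpleGraph V) : Matrix V V ℝ :=
  fun x y => (G.dist x y : ℝ)

/-- The vertices of the Johnson graph `J(16,6)`. -/
abbrev JV : Type := {s : Finset (Fin 16) // s.card = 6}

/-- The Johnson graph `J(16,6)`. -/
def J : SimpleGraph JV where
  Adj s t := (s.1 ∩ t.1).card = 5
  symm := ⟨fun s t h => by rw [Finset.inter_comm]; exact h⟩
  loopless := ⟨fun s h => by rw [Finset.inter_self, s.2] at h; omega⟩

/-- The diagonal matrix `(15/4, -1/4, …, -1/4)`. -/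
noncomputable def K : Matrix (Fin 16) (Fin 16) ℝ :=
  Matrix.diagonal fun i => if i = 0 then 15 / 4 else -1 / 4

/-- Johnson side 1: distances and distance-regularity. -/
def S_J1 : Prop := (∀ s t : JV, J.dist s t = 6 - (s.1 ∩ t.1).card) ∧ DistanceRegular J

/-- Johnson side 2: the factorisation of the distance matrix. -/
def S_J2 : Prop := (∀ s t : JV, J.dist s t = 6 - (s.1 ∩ t.1).card) →
  ∃ Z : Matrix JV (Fin 16) ℝ,
    Z.transpose * Z = (8008 : ℝ) • (1 : Matrix (Fin 16) (Fin 16) ℝ) ∧
    distMat J = Z * (K * Z.transpose)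

end Pool.Agent.R784.DC
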