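import Pool.Agent.R784.DC.Defs

set_option autoImplicit false

/-! The second graph for MP_08245e: words and the distance. -/

namespace Pool.Agent.R784.DC

/-- number of ones among the low 11 binary digits -/
def pc (n : ℕ) : ℕ := n % 2 + n / 2 % 2 + n / 4 % 2 + n / 8 % 2 + n / 16 % 2 + n / 32 % 2 +
  n / 64 % 2 + n / 128 % 2 + n / 256 % 2 + n / 512 % 2 + n / 1024 % 2

def M0 : ℕ := 759769161800108217019570661519362336545690010768916236120541364634271669711799119086659354469387928174846376861233135568174238598557727644746765552520936733175996313482868967373922360750532851464972900388138362448759302198213614138788247762338110941298942335753516065555429181538849012078073679471405866118981178595857751806434909692406987520789406639226978107001436004819579670694812802452820226612228565303361331956549303286899038613664036166301061836760485305125231152934117622071677329088635689266165305188902134069644420688795842018425087659754834472983092479475558245203969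

def M1 : ℕ := 759769161800108217019570661519381066301579309132656665500901448410392461030051471793542366554276675701585547756074179209331040018823127710744504380170935891603041713767834760412023794995563012297255198753979984218453605260113808241759779358187126630803003485476624289884097181069630113176942437070963908421153057295325395485256108614685188974960063930299943353738528419784011950653003940657776948051114829211202761434841957762168568125973080637927126891735406845393382698754178654758269785103800504899167798501301693725331146840131344130927498779296294378138552440779071348015105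

def M2 : ℕ := 759769161800108217019570661519362336545690010768916236120541364634271669711799119086659354469387930948319865605746905200569572118632862544658837649926160624863821902591912459180705796578485545446010799010526909968983129733251299848278841407661142875687989849672457307578524443631757613484235909307951923264434219189893742703358635660408017388525528217115921704911816598626598263352761862948669391395775998928393874606302189352598803695448838303159350578691577383636022514237060377992361041279215618005208137958726213593794422490467291590733015226387048116510968432542386860589057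

def M3 : ℕ := 4039625758913876361077912427589417524265751205546568729753716218356506915519094619271877389000481032380467661193576936738920732415701432513709621357271804392446115255163387335775385802043324536020274348480602033121174160490380299822161656000440159470626998566487856924722204415062642268832035063321037219170093079948816524605133269099233987709207853449914237624258381017514171560546823880172912900526762084535135513979824534682221989295335983664348363488692206277519455495060074940955047046614331196952954786305618014093437107033002933411598061712529747521020687036008773623191401745789336610222908526017803859263489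

/-- the word `a` forbids the class `c` -/
def inS (c a : ℕ) : Bool :=
  match c with
  | 0 => M0.testBit a
  | 1 => M1.testBit a
  | 2 => M2.testBit a
  | _ => M3.testBit a

/-- the class of a word of length 4 -/
def cls (b : ℕ) : ℕ := [0, 0, 0, 1, 0, 2, 3, 0, 0, 3, 2, 0, 1, 0, 0, 0].getD b 0

/-- the vertices -/
def ok (a b : ℕ) : Bool := pc a % 2 == 0 && (pc b % 2 == 0 && !inS (cls b) a)

theorem pc_sum (n : ℕ) : pc n = ∑ i ∈ Finset.range 11, n / 2 ^ i % 2 := by
  simp [pc, Finset.sum_range_succ]

/-- the positions of the ones -/
def bs (n : ℕ) : Finset ℕ := (Finset.range 11).filter fun i => n.testBit i = true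

theorem pc_bs (n : ℕ) : pc n = (bs n).card := by
  rw [pc_sum, bs, Finset.card_filter]
  refine Finset.sum_congr rfl fun i _ => ?_
  rw [Nat.testBit_eq_decide_div_mod_eq]
  rcases Nat.mod_two_eq_zero_or_one (n / 2 ^ i) with h | h <;> simp [h]

theorem digit_xor (x y i : ℕ) : (x ^^^ y) / 2 ^ i % 2 = (x / 2 ^ i % 2 + y / 2 ^ i % 2) % 2 := by
  have h := Nat.testBit_xor x y i
  rw [Nat.testBit_eq_decide_div_mod_eq, Nat.testBit_eq_decide_div_mod_eq,
    Nat.testBit_eq_decide_div_mod_eq] at h
  rcases Nat.mod_two_eq_zero_or_one (x / 2 ^ i) with h1 | h1 <;>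
    rcases Nat.mod_two_eq_zero_or_one (y / 2 ^ i) with h2 | h2 <;>
    rcases Nat.mod_two_eq_zero_or_one ((x ^^^ y) / 2 ^ i) with h3 | h3 <;>
    simp [h1, h2, h3] at h ⊢

theorem pc_xor_le (x y : ℕ) : pc (x ^^^ y) ≤ pc x + pc y := by
  rw [pc_sum, pc_sum, pc_sum, ← Finset.sum_add_distrib]
  refine Finset.sum_le_sum fun i _ => ?_
  rw [digit_xor]
  exact Nat.mod_le _ _

theorem pc_xor_mod (x y : ℕ) : pc (x ^^^ y) % 2 = (pc x + pc y) % 2 := by
  rw [pc_sum, pc_sum, pc_sum, ← Finset.sum_add_distrib]
  conv_rhs => rw [Finset.sum_nat_mod]
  conv_lhs => rw [Finset.sum_nat_mod]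
  congr 1
  refine Finset.sum_congr rfl fun i _ => ?_
  rw [digit_xor, Nat.mod_mod]

theorem pc_zero {n : ℕ} (hn : n < 2048) (h : pc n = 0) : n = 0 := by
  rw [pc_bs, Finset.card_eq_zero] at h
  apply Nat.eq_of_testBit_eq
  intro i
  rw [Nat.zero_testBit]
  by_cases hi : i < 11
  · by_contra hne
    rw [Bool.not_eq_false] at hne
    have : i ∈ bs n := Finset.mem_filter.2 ⟨Finset.mem_range.2 hi, hne⟩
    rw [h] at this
    simp at this
  · apply Nat.testBit_lt_two_pow
    exact lt_of_lt_of_le hn (Nat.pow_le_pow_right (n := 2) (by norm_num) (by omega : 11 ≤ i))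

theorem pc_flip {n i : ℕ} (hi : i ∈ bs n) : pc (n ^^^ 2 ^ i) + 1 = pc n := by
  have h : bs (n ^^^ 2 ^ i) = (bs n).erase i := by
    have hi' := (Finset.mem_filter.1 hi).2
    ext j
    rw [Finset.mem_erase, bs, bs, Finset.mem_filter, Finset.mem_filter, Nat.testBit_xor,
      Nat.testBit_two_pow]
    by_cases hj : i = j
    · subst hj
      simp [hi']
    · have : ¬ j = i := fun h => hj h.symm
      simp [hj, this]
  rw [pc_bs, pc_bs, h, Finset.card_erase_of_mem hi]
  have := Finset.card_pos.2 ⟨i, hi⟩
  omega

theorem bs_flip {n i j : ℕ} (hij : i ≠ j) (hj : j ∈ bs n) : j ∈ bs (n ^^^ 2 ^ i) := by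
  rw [bs, Finset.mem_filter] at hj ⊢
  refine ⟨hj.1, ?_⟩
  rw [Nat.testBit_xor, Nat.testBit_two_pow, hj.2]
  simp [hij]

theorem pc_pair : ∀ i < 11, ∀ j < 11, i ≠ j → pc (2 ^ i ^^^ 2 ^ j) = 2 := by decide +kernel

theorem bs_lt {n i : ℕ} (h : i ∈ bs n) : i < 11 := Finset.mem_range.1 (Finset.mem_filter.1 h).1

/-! ### finite facts -/

def AL : List ℕ := [0, 68, 126, 153, 231, 297, 298, 343, 413, 432, 462, 534, 603, 616, 655, 673, 753, 831, 833, 934, 984, 1014, 1061, 1115, 1170, 1212, 1218, 1263, 1292, 1393, 1394, 1429, 1515, 1587, 1596, 1613, 1706, 1748, 1799, 1818, 1892, 1923, 1992, 2045]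

def anyS (a : ℕ) : Bool := inS 0 a || (inS 1 a || (inS 2 a || inS 3 a))

set_option maxRecDepth 100000 in
theorem mem_AL : ∀ a < 2048, anyS a = true → a ∈ AL := by decide +kernel

set_option maxRecDepth 100000 in
theorem noTriple : ∀ a ∈ AL, ∀ b ∈ AL, pc (a ^^^ b) = 2 → ∀ c ∈ AL, pc (a ^^^ c) = 2 →
    pc (b ^^^ c) = 2 → False := by decide +kernel

set_option maxRecDepth 100000 in
theorem nested : ∀ a ∈ AL, ∀ b ∈ AL, pc (a ^^^ b) = 2 →
    (∀ c < 4, inS c a = true → inS c b = true) ∨ (∀ c < 4, inS c b = true → inS c a = true) := by
  decide +kernel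

set_option maxRecDepth 100000 in
theorem notThree : ∀ a < 2048, ∀ c < 4, inS c a = false → ∃ d < 4, d ≠ c ∧ inS d a = false := by
  decide +kernel

theorem cls_lt : ∀ b < 16, cls b < 4 := by decide

theorem anyS_iff (a : ℕ) : anyS a = false ↔ ∀ c < 4, inS c a = false := by
  unfold anyS
  constructor
  · intro h c hc
    simp only [Bool.or_eq_false_iff] at h
    interval_cases c
    · exact h.1
    · exact h.2.1
    · exact h.2.2.1
    · exact h.2.2.2
  · intro h
    simp [h 0 (by norm_num), h 1 (by norm_num), h 2 (by norm_num), h 3 (by norm_num)]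

/-- facts on the words of length 4 -/
theorem four_a : ∀ b < 16, ∀ b' < 16, (pc b % 2 = 0 ∧ pc b' % 2 = 0) →
    pc (b ^^^ b') = 0 ∨ pc (b ^^^ b') = 2 ∨ (pc (b ^^^ b') = 4 ∧ cls b = cls b') := by decide +kernel

/-- the middle word -/
def Mid (b b' d : ℕ) : Prop := ∃ b'' < 16, pc b'' % 2 = 0 ∧ cls b'' = d ∧ pc (b ^^^ b'') = 2 ∧
      pc (b'' ^^^ b') = 2

instance (b b' d : ℕ) : Decidable (Mid b b' d) := by unfold Mid; infer_instance

theorem four_b : ∀ b < 16, ∀ b' < 16, ∀ d < 4,
    (pc b % 2 = 0 ∧ pc b' % 2 = 0 ∧ pc (b ^^^ b') = 4 ∧ d ≠ cls b) → Mid b b' d := by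
  decide +kernel

theorem four_c : ∀ b < 16, ∀ b' < 16, pc (b ^^^ b') = 0 → b = b' := by decide +kernel

end Pool.Agent.R784.DC
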