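import Pool.Agent.R784.DC.G1

set_option autoImplicit false

/-! The second graph for MP_08245e: isometric embedding. -/

namespace Pool.Agent.R784.DC

/-- vertices of the second graph -/
abbrev GV : Type := {p : Fin 2048 × Fin 16 // ok p.1 p.2 = true}

/-- Hamming distance -/
def hd (u v : GV) : ℕ :=
  pc ((u.1.1 : ℕ) ^^^ (v.1.1 : ℕ)) + pc ((u.1.2 : ℕ) ^^^ (v.1.2 : ℕ))

theorem hd_comm (u v : GV) : hd u v = hd v u := by
  unfold hd
  rw [Nat.xor_comm, Nat.xor_comm (u.1.2 : ℕ)]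

theorem hd_self (u : GV) : hd u u = 0 := by
  unfold hd
  rw [Nat.xor_self, Nat.xor_self]; rfl

/-- the second graph -/
def G : SimpleGraph GV where
  Adj u v := hd u v = 2
  symm := ⟨fun u v h => by rw [hd_comm]; exact h⟩
  loopless := ⟨fun u h => by rw [hd_self] at h; omega⟩

theorem hd_triangle (u v w : GV) : hd u w ≤ hd u v + hd v w := by
  unfold hd
  have h1 := pc_xor_le ((u.1.1 : ℕ) ^^^ (v.1.1 : ℕ)) ((v.1.1 : ℕ) ^^^ (w.1.1 : ℕ))
  have h2 := pc_xor_le ((u.1.2 : ℕ) ^^^ (v.1.2 : ℕ)) ((v.1.2 : ℕ) ^^^ (w.1.2 : ℕ))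
  rw [Nat.xor_assoc, ← Nat.xor_assoc (v.1.1 : ℕ), Nat.xor_self, Nat.zero_xor] at h1
  rw [Nat.xor_assoc, ← Nat.xor_assoc (v.1.2 : ℕ), Nat.xor_self, Nat.zero_xor] at h2
  omega

theorem ok_iff (a b : ℕ) : ok a b = true ↔ pc a % 2 = 0 ∧ pc b % 2 = 0 ∧
    inS (cls b) a = false := by
  unfold ok
  simp

theorem hd_even (u v : GV) : pc ((u.1.1 : ℕ) ^^^ (v.1.1 : ℕ)) % 2 = 0 ∧
    pc ((u.1.2 : ℕ) ^^^ (v.1.2 : ℕ)) % 2 = 0 := by
  obtain ⟨h1, h2, -⟩ := (ok_iff _ _).1 u.2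
  obtain ⟨h3, h4, -⟩ := (ok_iff _ _).1 v.2
  rw [pc_xor_mod, pc_xor_mod]
  omega

theorem hd_zero {u v : GV} (h : hd u v = 0) : u = v := by
  unfold hd at h
  have h1 : pc ((u.1.1 : ℕ) ^^^ (v.1.1 : ℕ)) = 0 := by omega
  have h2 : pc ((u.1.2 : ℕ) ^^^ (v.1.2 : ℕ)) = 0 := by omega
  have h3 := pc_zero (Nat.xor_lt_two_pow (n := 11) u.1.1.2 v.1.1.2) h1
  have h4 := four_c _ u.1.2.2 _ v.1.2.2 h2
  apply Subtype.ext
  apply Prod.ext
  · exact Fin.ext (Nat.xor_eq_zero_iff.1 h3)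
  · exact Fin.ext h4

/-- a vertex -/
def mk (a b : ℕ) (ha : a < 2048) (hb : b < 16) (h : ok a b = true) : GV := ⟨(⟨a, ha⟩, ⟨b, hb⟩), h⟩

/-- moving closer in the first part -/
theorem step_a {a a' b : ℕ} (ha : a < 2048) (ha' : a' < 2048) (hb : b < 16) (hok : ok a b = true)
    (h4 : 4 ≤ pc (a ^^^ a')) : ∃ a'' < 2048, ok a'' b = true ∧ pc (a ^^^ a'') = 2 ∧
      pc (a'' ^^^ a') + 2 = pc (a ^^^ a') := by
  obtain ⟨hpa, hpb, -⟩ := (ok_iff _ _).1 hok
  rw [pc_bs] at h4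
  obtain ⟨i, hi, j, hj, k, hk, hij, hik, hjk⟩ := Finset.two_lt_card.1
    (by omega : 2 < (bs (a ^^^ a')).card)
  have key : ∀ i j, i ∈ bs (a ^^^ a') → j ∈ bs (a ^^^ a') → i ≠ j →
      anyS (a ^^^ (2 ^ i ^^^ 2 ^ j)) = false →
      ∃ a'' < 2048, ok a'' b = true ∧ pc (a ^^^ a'') = 2 ∧ pc (a'' ^^^ a') + 2 = pc (a ^^^ a') := by
    intro i j hi hj hij hS
    have hi11 := bs_lt hi
    have hj11 := bs_lt hj
    have hlt : a ^^^ (2 ^ i ^^^ 2 ^ j) < 2048 :=
      Nat.xor_lt_two_pow (n := 11) ha (Nat.xor_lt_two_pow (n := 11)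
        (Nat.pow_lt_pow_right (by norm_num) hi11) (Nat.pow_lt_pow_right (by norm_num) hj11))
    have hpp := pc_pair i hi11 j hj11 hij
    have hx : a ^^^ (a ^^^ (2 ^ i ^^^ 2 ^ j)) = 2 ^ i ^^^ 2 ^ j := by
      rw [← Nat.xor_assoc, Nat.xor_self, Nat.zero_xor]
    refine ⟨_, hlt, (ok_iff _ _).2 ⟨?_, hpb, (anyS_iff _).1 hS _ (cls_lt b hb)⟩, ?_, ?_⟩
    · rw [pc_xor_mod, hpp]; omega
    · rw [hx, hpp]
    · have e1 : a ^^^ (2 ^ i ^^^ 2 ^ j) ^^^ a' = (a ^^^ a') ^^^ 2 ^ i ^^^ 2 ^ j := by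
        rw [Nat.xor_assoc, Nat.xor_comm (2 ^ i ^^^ 2 ^ j) a', ← Nat.xor_assoc, ← Nat.xor_assoc]
      have e2 := pc_flip hi
      have e3 := pc_flip (bs_flip hij hj)
      rw [e1]
      omega
  by_contra hno
  have h1 : anyS (a ^^^ (2 ^ i ^^^ 2 ^ j)) = true := by
    by_contra h; exact hno (key i j hi hj hij (by simpa using h))
  have h2 : anyS (a ^^^ (2 ^ i ^^^ 2 ^ k)) = true := by
    by_contra h; exact hno (key i k hi hk hik (by simpa using h))
  have h3 : anyS (a ^^^ (2 ^ j ^^^ 2 ^ k)) = true := by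
    by_contra h; exact hno (key j k hj hk hjk (by simpa using h))
  have hlt : ∀ i j, i < 11 → j < 11 → a ^^^ (2 ^ i ^^^ 2 ^ j) < 2048 := fun i j hi hj =>
      Nat.xor_lt_two_pow (n := 11) ha (Nat.xor_lt_two_pow (n := 11)
        (Nat.pow_lt_pow_right (by norm_num) hi) (Nat.pow_lt_pow_right (by norm_num) hj))
  have hi11 := bs_lt hi
  have hj11 := bs_lt hj
  have hk11 := bs_lt hk
  have e12 : (a ^^^ (2 ^ i ^^^ 2 ^ j)) ^^^ (a ^^^ (2 ^ i ^^^ 2 ^ k)) = 2 ^ j ^^^ 2 ^ k := by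
    apply Nat.eq_of_testBit_eq
    intro l
    simp only [Nat.testBit_xor]
    cases a.testBit l <;> cases (2 ^ i).testBit l <;> simp
  have e13 : (a ^^^ (2 ^ i ^^^ 2 ^ j)) ^^^ (a ^^^ (2 ^ j ^^^ 2 ^ k)) = 2 ^ i ^^^ 2 ^ k := by
    apply Nat.eq_of_testBit_eq
    intro l
    simp only [Nat.testBit_xor]
    cases a.testBit l <;> cases (2 ^ j).testBit l <;> simp
  have e23 : (a ^^^ (2 ^ i ^^^ 2 ^ k)) ^^^ (a ^^^ (2 ^ j ^^^ 2 ^ k)) = 2 ^ i ^^^ 2 ^ j := by
    apply Nat.eq_of_testBit_eq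
    intro l
    simp only [Nat.testBit_xor]
    cases a.testBit l <;> cases (2 ^ k).testBit l <;> simp
  refine noTriple _ (mem_AL _ (hlt i j hi11 hj11) h1) _ (mem_AL _ (hlt i k hi11 hk11) h2) ?_
    _ (mem_AL _ (hlt j k hj11 hk11) h3) ?_ ?_
  · rw [e12]; exact pc_pair j hj11 k hk11 hjk
  · rw [e13]; exact pc_pair i hi11 k hk11 hik
  · rw [e23]; exact pc_pair i hi11 j hj11 hij

/-- moving closer -/
theorem step {u v : GV} (h : 4 ≤ hd u v) : ∃ z : GV, hd u z = 2 ∧ hd z v + 2 = hd u v := by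
  have hev := hd_even u v
  obtain ⟨⟨⟨a, ha⟩, ⟨b, hb⟩⟩, hu⟩ := u
  obtain ⟨⟨⟨a', ha'⟩, ⟨b', hb'⟩⟩, hv⟩ := v
  change 4 ≤ pc (a ^^^ a') + pc (b ^^^ b') at h
  change pc (a ^^^ a') % 2 = 0 ∧ pc (b ^^^ b') % 2 = 0 at hev
  change ok a b = true at hu
  change ok a' b' = true at hv
  obtain ⟨hpa, hpb, hS⟩ := (ok_iff _ _).1 hu
  obtain ⟨hpa', hpb', hS'⟩ := (ok_iff _ _).1 hv
  suffices hz : ∃ a'' b'' : ℕ, a'' < 2048 ∧ b'' < 16 ∧ ok a'' b'' = true ∧
      pc (a ^^^ a'') + pc (b ^^^ b'') = 2 ∧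
      pc (a'' ^^^ a') + pc (b'' ^^^ b') + 2 = pc (a ^^^ a') + pc (b ^^^ b') by
    obtain ⟨a'', b'', h1, h2, h3, h4, h5⟩ := hz
    exact ⟨mk a'' b'' h1 h2 h3, h4, h5⟩
  have hp0 : pc 0 = 0 := rfl
  rcases Nat.lt_or_ge (pc (a ^^^ a')) 4 with h4 | h4
  · have h02 : pc (a ^^^ a') = 0 ∨ pc (a ^^^ a') = 2 := by omega
    rcases h02 with h0 | h2
    · -- same first part
      have haa : a = a' := Nat.xor_eq_zero_iff.1 (pc_zero (Nat.xor_lt_two_pow (n := 11) ha ha') h0)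
      subst haa
      obtain ⟨d, hd4, hdc, hdS⟩ := notThree a ha (cls b) (cls_lt b hb) hS
      have hb4 : pc (b ^^^ b') = 4 := by
        rcases four_a b hb b' hb' ⟨hpb, hpb'⟩ with h1 | h1 | h1
        · omega
        · omega
        · exact h1.1
      obtain ⟨b'', hb'', h1, h2, h3, h5⟩ := four_b b hb b' hb' d hd4 ⟨hpb, hpb', hb4, hdc⟩
      refine ⟨a, b'', ha, hb'', (ok_iff _ _).2 ⟨hpa, h1, by rw [h2]; exact hdS⟩, ?_, ?_⟩
      · rw [Nat.xor_self, hp0, h3]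
      · rw [Nat.xor_self, hp0, h5, hb4]
    · by_cases hc : inS (cls b) a' = false
      · refine ⟨a', b, ha', hb, (ok_iff _ _).2 ⟨hpa', hpb, hc⟩, ?_, ?_⟩
        · rw [h2, Nat.xor_self, hp0]
        · rw [Nat.xor_self, hp0, h2]; ring
      · rw [Bool.not_eq_false] at hc
        have hb2 : pc (b ^^^ b') = 2 := by
          rcases four_a b hb b' hb' ⟨hpb, hpb'⟩ with h1 | h1 | h1
          · omega
          · exact h1
          · rw [h1.2, hS'] at hc
            exact absurd hc (by simp)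
        have hsub : inS (cls b') a = false := by
          by_contra hne
          rw [Bool.not_eq_false] at hne
          have ha1 : anyS a = true := by
            by_contra h1
            have := (anyS_iff a).1 (by simpa using h1) _ (cls_lt b' hb')
            rw [this] at hne
            exact absurd hne (by simp)
          have ha2 : anyS a' = true := by
            by_contra h1
            have := (anyS_iff a').1 (by simpa using h1) _ (cls_lt b hb)
            rw [this] at hc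
            exact absurd hc (by simp)
          rcases nested a (mem_AL a ha ha1) a' (mem_AL a' ha' ha2) h2 with h1 | h1
          · have := h1 _ (cls_lt b' hb') hne
            rw [hS'] at this
            exact absurd this (by simp)
          · have := h1 _ (cls_lt b hb) hc
            rw [hS] at this
            exact absurd this (by simp)
        refine ⟨a, b', ha, hb', (ok_iff _ _).2 ⟨hpa, hpb', hsub⟩, ?_, ?_⟩
        · rw [Nat.xor_self, hp0, hb2]
        · rw [Nat.xor_self, hp0, h2, hb2]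
  · obtain ⟨a'', h1, h2, h3, h5⟩ := step_a ha ha' hb hu h4
    refine ⟨a'', b, h1, hb, h2, ?_, ?_⟩
    · rw [h3, Nat.xor_self, hp0]
    · omega

theorem exists_walkG (n : ℕ) : ∀ u v : GV, hd u v = 2 * n → ∃ p : G.Walk u v, p.length = n := by
  induction n with
  | zero =>
    intro u v h
    have := hd_zero h
    subst this
    exact ⟨SimpleGraph.Walk.nil, rfl⟩
  | succ n ih =>
    intro u v h
    rcases Nat.eq_zero_or_pos n with h0 | h0
    · subst h0
      have hadj : G.Adj u v := h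
      exact ⟨SimpleGraph.Walk.cons hadj SimpleGraph.Walk.nil, rfl⟩
    · obtain ⟨z, hz1, hz2⟩ := step (u := u) (v := v) (by omega)
      obtain ⟨p, hp⟩ := ih z v (by omega)
      have hadj : G.Adj u z := hz1
      exact ⟨SimpleGraph.Walk.cons hadj p, by rw [SimpleGraph.Walk.length_cons, hp]⟩

theorem hd_le_walk {u v : GV} (p : G.Walk u v) : hd u v ≤ 2 * p.length := by
  induction p with
  | nil => rw [hd_self]; simp
  | cons h p ih =>
    rename_i u v w
    have h1 := hd_triangle u v w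
    have h2 : hd u v = 2 := h
    rw [SimpleGraph.Walk.length_cons]
    omega

theorem hd_mod (u v : GV) : hd u v % 2 = 0 := by
  have := hd_even u v
  unfold hd
  omega

theorem G_reach (u v : GV) : G.Reachable u v := by
  obtain ⟨p, -⟩ := exists_walkG (hd u v / 2) u v (by have := hd_mod u v; omega)
  exact ⟨p⟩

theorem G_dist (u v : GV) : 2 * G.dist u v = hd u v := by
  have hm := hd_mod u v
  obtain ⟨p, hp⟩ := exists_walkG (hd u v / 2) u v (by omega)
  have h1 := SimpleGraph.dist_le p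
  obtain ⟨q, hq⟩ := (G_reach u v).exists_walk_length_eq_dist
  have h2 := hd_le_walk q
  omega

end Pool.Agent.R784.DC
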