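import Pool.Agent.R784.DC.G2

set_option autoImplicit false

/-! The second graph for MP_08245e is not distance-regular. -/

namespace Pool.Agent.R784.DC

set_option maxRecDepth 100000 in
theorem all_nb : ∀ m < 2048, ∀ k < 16, (pc m % 2 = 0 ∧ pc k % 2 = 0 ∧ pc m + pc k = 2) →
    ok (15 ^^^ m) k = true := by decide +kernel

/-- a vertex with 61 neighbours -/
def u0 : GV := mk 15 0 (by norm_num) (by norm_num) (by decide +kernel)

/-- a vertex with 57 neighbours -/
def u1 : GV := mk 33 3 (by norm_num) (by norm_num) (by decide +kernel)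

/-- neighbours -/
def nb (u : GV) : Set GV := {z | hd u z = 2}

/-- difference -/
def df (u z : GV) : ℕ × ℕ := ((u.1.1 : ℕ) ^^^ (z.1.1 : ℕ), (u.1.2 : ℕ) ^^^ (z.1.2 : ℕ))

theorem df_inj (u : GV) : Function.Injective (df u) := by
  intro z w h
  have h1 := congrArg Prod.fst h
  have h2 := congrArg Prod.snd h
  change (u.1.1 : ℕ) ^^^ (z.1.1 : ℕ) = (u.1.1 : ℕ) ^^^ (w.1.1 : ℕ) at h1
  change (u.1.2 : ℕ) ^^^ (z.1.2 : ℕ) = (u.1.2 : ℕ) ^^^ (w.1.2 : ℕ) at h2
  apply Subtype.ext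
  apply Prod.ext
  · exact Fin.ext (Nat.xor_right_injective h1)
  · exact Fin.ext (Nat.xor_right_injective h2)

theorem deg_lt : (nb u1).ncard < (nb u0).ncard := by
  rw [← Set.ncard_image_of_injective (nb u1) (df_inj u1),
    ← Set.ncard_image_of_injective (nb u0) (df_inj u0)]
  apply Set.ncard_lt_ncard _ (Set.toFinite _)
  have hmem : ∀ m k : ℕ, m < 2048 → k < 16 → (pc m % 2 = 0 ∧ pc k % 2 = 0 ∧ pc m + pc k = 2) →
      (m, k) ∈ df u0 '' nb u0 := by
    intro m k hm hk h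
    have hlt : 15 ^^^ m < 2048 := Nat.xor_lt_two_pow (n := 11) (by norm_num) hm
    refine ⟨mk (15 ^^^ m) k hlt hk (all_nb m hm k hk h), ?_, ?_⟩
    · change pc (15 ^^^ (15 ^^^ m)) + pc (0 ^^^ k) = 2
      rw [← Nat.xor_assoc, Nat.xor_self, Nat.zero_xor, Nat.zero_xor]
      exact h.2.2
    · change (15 ^^^ (15 ^^^ m), 0 ^^^ k) = (m, k)
      rw [← Nat.xor_assoc, Nat.xor_self, Nat.zero_xor, Nat.zero_xor]
  rw [Set.ssubset_iff_of_subset]
  · refine ⟨(33, 0), hmem 33 0 (by norm_num) (by norm_num) (by decide +kernel), ?_⟩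
    rintro ⟨z, -, hz⟩
    have h1 := congrArg Prod.fst hz
    have h2 := congrArg Prod.snd hz
    change 33 ^^^ (z.1.1 : ℕ) = 33 at h1
    change 3 ^^^ (z.1.2 : ℕ) = 0 at h2
    have h3 : (z.1.1 : ℕ) = 0 := by
      have := Nat.xor_right_injective (h1.trans (Nat.xor_zero 33).symm)
      exact this
    have h4 : (z.1.2 : ℕ) = 3 := (Nat.xor_eq_zero_iff.1 h2).symm
    have h5 := z.2
    rw [h3, h4] at h5
    exact absurd h5 (by decide +kernel)
  · rintro x ⟨z, hz, rfl⟩
    have he := hd_even u1 z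
    have hz' : hd u1 z = 2 := hz
    exact hmem _ _ (Nat.xor_lt_two_pow (n := 11) u1.1.1.2 z.1.1.2)
      (Nat.xor_lt_two_pow (n := 4) u1.1.2.2 z.1.2.2) ⟨he.1, he.2, hz'⟩

theorem not_dr : ¬ DistanceRegular G := by
  rintro ⟨-, b, c, h⟩
  have key : ∀ u : GV, (nb u).ncard = b 0 := by
    intro u
    have h1 := (h u u).1
    rw [SimpleGraph.dist_self] at h1
    rw [← h1]
    congr 1
    ext z
    change hd u z = 2 ↔ hd u z = 2 ∧ G.dist u z = 0 + 1
    have := G_dist u z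
    omega
  have := deg_lt
  rw [key, key] at this
  exact lt_irrefl _ this

theorem G_conn : G.Connected := by
  haveI : Nonempty GV := ⟨u0⟩
  exact ⟨fun u v => G_reach u v⟩

end Pool.Agent.R784.DC
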