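import Pool.Agent.R784.DC.G3

set_option autoImplicit false

/-! The second graph for MP_08245e: the Gram matrix. -/

namespace Pool.Agent.R784.DC

/-- sign of a binary digit -/
def sg (n k : ℕ) : ℤ := if n.testBit k then -1 else 1

/-- coordinate of the first word (index 0 is constant) -/
def fa (i a : ℕ) : ℤ := if i < 12 then sg (2 * a) i else 1

/-- coordinate of the second word -/
def gb (i b : ℕ) : ℤ := if i < 12 then 1 else sg b (i - 12)

/-- the number of allowed classes, zero if the word is odd -/
def w4 (a : ℕ) : ℕ := cond (Nat.beq (pc a % 2) 0) ((!inS 0 a).toNat + (!inS 1 a).toNat +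
  (!inS 2 a).toNat + (!inS 3 a).toNat) 0

/-- dyadic sums -/
def sumB (f : ℕ → ℕ) : ℕ → ℕ → ℕ
  | 0, lo => f lo
  | k + 1, lo => sumB f k lo + sumB f k (lo + 2 ^ k)

theorem sumB_eq (f : ℕ → ℕ) (k : ℕ) : ∀ lo, sumB f k lo = ∑ a ∈ Finset.range (2 ^ k), f (lo + a) := by
  induction k with
  | zero => intro lo; simp [sumB]
  | succ k ih =>
    intro lo
    rw [sumB, ih, ih, pow_succ, mul_two, Finset.sum_range_add]
    congr 1
    exact Finset.sum_congr rfl fun a _ => by rw [add_assoc]

/-- number of the words with different signs -/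
def DD (i j : ℕ) : ℕ := sumB (fun a => w4 a *
  (xor ((2 * a).testBit i) ((2 * a).testBit j)).toNat) 11 0

set_option maxRecDepth 100000 in
theorem DD_all : ∀ i < 12, ∀ j < 12, i < j → DD i j = 2002 := by decide +kernel

set_option maxRecDepth 100000 in
theorem total_w4 : sumB w4 11 0 = 4004 := by decide +kernel

set_option maxRecDepth 100000 in
theorem total_c : ∀ c < 4, sumB (fun a => cond (Nat.beq (pc a % 2) 0) (!inS c a).toNat 0) 11 0 =
    1001 := by decide +kernel

end Pool.Agent.R784.DC
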