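import Pool.Agent.R784.DC.G4

set_option autoImplicit false

/-! The second graph for MP_08245e: the factorisation of the distance matrix. -/

namespace Pool.Agent.R784.DC

theorem sumGV (F : ℕ → ℕ → ℤ) : ∑ v : GV, F v.1.1 v.1.2 =
    ∑ b ∈ Finset.range 16, ∑ a ∈ Finset.range 2048, if ok a b = true then F a b else 0 := by
  have h : ∑ p ∈ (Finset.univ.filter fun p : Fin 2048 × Fin 16 => ok p.1 p.2 = true), F p.1 p.2 =
      ∑ v : GV, F v.1.1 v.1.2 :=
    Finset.sum_subtype _ (by intro x; simp) (fun p : Fin 2048 × Fin 16 => F p.1 p.2)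
  rw [← h, Finset.sum_filter, Fintype.sum_prod_type_right]
  rw [← Fin.sum_univ_eq_sum_range (fun b => ∑ a ∈ Finset.range 2048,
    if ok a b = true then F a b else 0) 16]
  refine Finset.sum_congr rfl fun b _ => ?_
  exact Fin.sum_univ_eq_sum_range (fun a => if ok a b = true then F a b else 0) 2048

/-- partial sums -/
def RR (f : ℕ → ℤ) (c : ℕ) : ℤ :=
  ∑ a ∈ Finset.range 2048, if pc a % 2 = 0 ∧ inS c a = false then f a else 0

theorem sum_fg (f g : ℕ → ℤ) : (∑ b ∈ Finset.range 16, ∑ a ∈ Finset.range 2048,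
    if ok a b = true then f a * g b else 0) =
      (g 0 + g 15) * RR f 0 + (g 3 + g 12) * RR f 1 + (g 5 + g 10) * RR f 2 +
        (g 6 + g 9) * RR f 3 := by
  have h1 : ∀ b ∈ Finset.range 16, (∑ a ∈ Finset.range 2048,
      if ok a b = true then f a * g b else 0) =
        if pc b % 2 = 0 then g b * RR f (cls b) else 0 := by
    intro b _
    by_cases hb : pc b % 2 = 0
    · rw [if_pos hb, RR, Finset.mul_sum]
      refine Finset.sum_congr rfl fun a _ => ?_
      by_cases ha : pc a % 2 = 0 ∧ inS (cls b) a = false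
      · rw [if_pos ha, if_pos ((ok_iff a b).2 ⟨ha.1, hb, ha.2⟩)]; ring
      · rw [if_neg ha, if_neg]
        · ring
        · intro h
          obtain ⟨h1, -, h3⟩ := (ok_iff a b).1 h
          exact ha ⟨h1, h3⟩
    · rw [if_neg hb]
      refine Finset.sum_eq_zero fun a _ => ?_
      rw [if_neg]
      intro h
      exact hb ((ok_iff a b).1 h).2.1
  rw [Finset.sum_congr rfl h1, ← Finset.sum_filter]
  have h2 : (Finset.range 16).filter (fun b => pc b % 2 = 0) = {0, 3, 5, 6, 9, 10, 12, 15} := by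
    decide
  rw [h2]
  simp only [Finset.sum_insert (show (0:ℕ) ∉ ({3, 5, 6, 9, 10, 12, 15} : Finset ℕ) by decide),
    Finset.sum_insert (show (3:ℕ) ∉ ({5, 6, 9, 10, 12, 15} : Finset ℕ) by decide),
    Finset.sum_insert (show (5:ℕ) ∉ ({6, 9, 10, 12, 15} : Finset ℕ) by decide),
    Finset.sum_insert (show (6:ℕ) ∉ ({9, 10, 12, 15} : Finset ℕ) by decide),
    Finset.sum_insert (show (9:ℕ) ∉ ({10, 12, 15} : Finset ℕ) by decide),
    Finset.sum_insert (show (10:ℕ) ∉ ({12, 15} : Finset ℕ) by decide),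
    Finset.sum_insert (show (12:ℕ) ∉ ({15} : Finset ℕ) by decide), Finset.sum_singleton]
  have c0 : cls 0 = 0 := rfl
  have c3 : cls 3 = 1 := rfl
  have c5 : cls 5 = 2 := rfl
  have c6 : cls 6 = 3 := rfl
  have c9 : cls 9 = 3 := rfl
  have c10 : cls 10 = 2 := rfl
  have c12 : cls 12 = 1 := rfl
  have c15 : cls 15 = 0 := rfl
  rw [c0, c3, c5, c6, c9, c10, c12, c15]
  ring

theorem RR_total (f : ℕ → ℤ) : RR f 0 + RR f 1 + RR f 2 + RR f 3 =
    ∑ a ∈ Finset.range 2048, (w4 a : ℤ) * f a := by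
  unfold RR
  rw [← Finset.sum_add_distrib, ← Finset.sum_add_distrib, ← Finset.sum_add_distrib]
  refine Finset.sum_congr rfl fun a _ => ?_
  unfold w4
  by_cases h : pc a % 2 = 0
  · have : Nat.beq (pc a % 2) 0 = true := by rw [h]; rfl
    rw [this]
    cases inS 0 a <;> cases inS 1 a <;> cases inS 2 a <;> cases inS 3 a <;> simp [h] <;> ring
  · have : Nat.beq (pc a % 2) 0 = false := by
      rw [← Bool.not_eq_true, Nat.beq_eq]; exact h
    rw [this]
    simp [h]

theorem sumB0 (f : ℕ → ℕ) : sumB f 11 0 = ∑ a ∈ Finset.range 2048, f a := by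
  rw [sumB_eq]
  simp only [zero_add]
  norm_num

theorem RR_one (c : ℕ) (hc : c < 4) : RR (fun _ => 1) c = 1001 := by
  have h := total_c c hc
  rw [sumB0] at h
  have h2 : ((∑ a ∈ Finset.range 2048, cond (Nat.beq (pc a % 2) 0) (!inS c a).toNat 0 : ℕ) : ℤ) =
      1001 := by rw [h]; rfl
  rw [← h2, RR, Nat.cast_sum]
  refine Finset.sum_congr rfl fun a _ => ?_
  by_cases h : pc a % 2 = 0
  · have : Nat.beq (pc a % 2) 0 = true := by rw [h]; rfl
    rw [this]
    cases inS c a <;> simp [h]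
  · have : Nat.beq (pc a % 2) 0 = false := by
      rw [← Bool.not_eq_true, Nat.beq_eq]; exact h
    rw [this]
    simp [h]

theorem sg_mul (x y k : ℕ) : sg x k * sg y k = 1 - 2 * (((x ^^^ y) / 2 ^ k % 2 : ℕ) : ℤ) := by
  have h := digit_xor x y k
  rw [h]
  unfold sg
  rw [Nat.testBit_eq_decide_div_mod_eq, Nat.testBit_eq_decide_div_mod_eq]
  rcases Nat.mod_two_eq_zero_or_one (x / 2 ^ k) with h1 | h1 <;>
    rcases Nat.mod_two_eq_zero_or_one (y / 2 ^ k) with h2 | h2 <;> simp [h1, h2]

theorem sg_mul' (x i j : ℕ) : sg x i * sg x j =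
    1 - 2 * (((xor (x.testBit i) (x.testBit j)).toNat : ℕ) : ℤ) := by
  unfold sg
  cases x.testBit i <;> cases x.testBit j <;> simp

theorem gram_aa {i j : ℕ} (hi : i < 12) (hj : j < 12) :
    ∑ a ∈ Finset.range 2048, (w4 a : ℤ) * (fa i a * fa j a) = if i = j then 4004 else 0 := by
  have ht : (∑ a ∈ Finset.range 2048, (w4 a : ℤ)) = 4004 := by
    have := total_w4
    rw [sumB0] at this
    exact_mod_cast this
  have e1 : ∀ a, fa i a * fa j a =
      1 - 2 * (((xor ((2 * a).testBit i) ((2 * a).testBit j)).toNat : ℕ) : ℤ) := by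
    intro a
    unfold fa
    rw [if_pos hi, if_pos hj, sg_mul']
  simp only [e1]
  have e2 : ∀ a, (w4 a : ℤ) * (1 - 2 *
      (((xor ((2 * a).testBit i) ((2 * a).testBit j)).toNat : ℕ) : ℤ)) = (w4 a : ℤ) -
        2 * ((w4 a * (xor ((2 * a).testBit i) ((2 * a).testBit j)).toNat : ℕ) : ℤ) := by
    intro a; push_cast; ring
  simp only [e2]
  rw [Finset.sum_sub_distrib, ht, ← Finset.mul_sum, ← Nat.cast_sum]
  by_cases hij : i = j
  · subst hij
    simp
  · rw [if_neg hij]
    have h1 : (∑ a ∈ Finset.range 2048,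
        w4 a * (xor ((2 * a).testBit i) ((2 * a).testBit j)).toNat) = 2002 := by
      rcases lt_or_gt_of_ne hij with h | h
      · have := DD_all i hi j hj h
        rw [DD, sumB0] at this
        exact this
      · have := DD_all j hj i hi h
        rw [DD, sumB0] at this
        rw [← this]
        exact Finset.sum_congr rfl fun a _ => by rw [Bool.xor_comm]
    rw [h1]
    norm_num

theorem gb_anti : ∀ k < 4, sg 0 k + sg 15 k = 0 ∧ sg 3 k + sg 12 k = 0 ∧ sg 5 k + sg 10 k = 0 ∧
    sg 6 k + sg 9 k = 0 := by decide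

theorem gb_gram : ∀ k < 4, ∀ l < 4, (sg 0 k * sg 0 l + sg 15 k * sg 15 l) +
    (sg 3 k * sg 3 l + sg 12 k * sg 12 l) + (sg 5 k * sg 5 l + sg 10 k * sg 10 l) +
    (sg 6 k * sg 6 l + sg 9 k * sg 9 l) = if k = l then 8 else 0 := by decide

theorem gram (i j : ℕ) (hi : i < 16) (hj : j < 16) :
    ∑ v : GV, (fa i v.1.1 * fa j v.1.1) * (gb i v.1.2 * gb j v.1.2) =
      if i = j then 8008 else 0 := by
  rw [sumGV (fun a b => (fa i a * fa j a) * (gb i b * gb j b)),
    sum_fg (fun a => fa i a * fa j a) (fun b => gb i b * gb j b)]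
  rcases Nat.lt_or_ge i 12 with hi' | hi'
  · rcases Nat.lt_or_ge j 12 with hj' | hj'
    · have e : ∀ b, gb i b * gb j b = 1 := by
        intro b; unfold gb; rw [if_pos hi', if_pos hj']; rfl
      simp only [e]
      have h := RR_total (fun a => fa i a * fa j a)
      rw [gram_aa hi' hj'] at h
      have : (1 + 1 : ℤ) * RR (fun a => fa i a * fa j a) 0 + (1 + 1) * RR (fun a => fa i a * fa j a) 1
          + (1 + 1) * RR (fun a => fa i a * fa j a) 2 + (1 + 1) * RR (fun a => fa i a * fa j a) 3 =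
          2 * (if i = j then 4004 else 0) := by rw [← h]; ring
      rw [this]
      split_ifs <;> norm_num
    · have e : ∀ b, gb i b * gb j b = sg b (j - 12) := by
        intro b; unfold gb; rw [if_pos hi', if_neg (by omega), one_mul]
      obtain ⟨h1, h2, h3, h4⟩ := gb_anti (j - 12) (by omega)
      simp only [e]
      rw [h1, h2, h3, h4, if_neg (by omega)]
      ring
  · rcases Nat.lt_or_ge j 12 with hj' | hj'
    · have e : ∀ b, gb i b * gb j b = sg b (i - 12) := by
        intro b; unfold gb; rw [if_pos hj', if_neg (by omega), mul_one]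
      obtain ⟨h1, h2, h3, h4⟩ := gb_anti (i - 12) (by omega)
      simp only [e]
      rw [h1, h2, h3, h4, if_neg (by omega)]
      ring
    · have e : ∀ b, gb i b * gb j b = sg b (i - 12) * sg b (j - 12) := by
        intro b; unfold gb; rw [if_neg (by omega), if_neg (by omega)]
      have e' : (fun a => fa i a * fa j a) = fun _ => 1 := by
        funext a; unfold fa; rw [if_neg (by omega), if_neg (by omega)]; rfl
      simp only [e]
      rw [e', RR_one 0 (by norm_num), RR_one 1 (by norm_num), RR_one 2 (by norm_num),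
        RR_one 3 (by norm_num)]
      have h := gb_gram (i - 12) (by omega) (j - 12) (by omega)
      have h5 : (i - 12 = j - 12) ↔ i = j := by omega
      rw [← add_mul, ← add_mul, ← add_mul, h]
      by_cases hij : i = j
      · rw [if_pos (h5.2 hij), if_pos hij]; norm_num
      · rw [if_neg (fun h6 => hij (h5.1 h6)), if_neg hij]; norm_num

/-- inner products of the coordinate vectors -/
theorem inner_eq (a a' b b' : ℕ) (hb : b < 16) (hb' : b' < 16) :
    ∑ i ∈ Finset.range 16, (fa i a * gb i b) * (fa i a' * gb i b') =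
      16 - 2 * ((pc (a ^^^ a') + pc (b ^^^ b') : ℕ) : ℤ) := by
  have h1 : ∑ i ∈ Finset.range 16, (fa i a * gb i b) * (fa i a' * gb i b') =
      (1 + ∑ k ∈ Finset.range 11, sg a k * sg a' k) + ∑ k ∈ Finset.range 4, sg b k * sg b' k := by
    have ht : ∀ x k : ℕ, (2 * x).testBit (k + 1) = x.testBit k := fun x k => by
      rw [Nat.testBit_succ, Nat.mul_div_cancel_left x (by norm_num)]
    have h0 : ∀ x : ℕ, (2 * x).testBit 0 = false := fun x => by simp
    have e0 : ∀ x, fa 0 x = 1 := fun x => by simp [fa, sg]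
    have ek : ∀ x k, k < 11 → fa (k + 1) x = sg x k := fun x k hk => by
      unfold fa sg
      rw [if_pos (by omega), ht]
    have gk : ∀ x k, k < 12 → gb k x = 1 := fun x k hk => by
      unfold gb; rw [if_pos hk]
    have fk : ∀ x k, fa (k + 12) x = 1 := fun x k => by
      unfold fa; rw [if_neg (by omega)]
    have hk : ∀ x k, gb (k + 12) x = sg x k := fun x k => by
      unfold gb; rw [if_neg (by omega), Nat.add_sub_cancel]
    rw [Finset.sum_range_add (fun i => (fa i a * gb i b) * (fa i a' * gb i b')) 12 4,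
      Finset.sum_range_succ' _ 11]
    congr 1
    · rw [add_comm, e0, e0, gk _ 0 (by norm_num), gk _ 0 (by norm_num)]
      congr 1
      refine Finset.sum_congr rfl fun k hk' => ?_
      have hk11 := Finset.mem_range.1 hk'
      rw [ek _ _ hk11, ek _ _ hk11, gk _ _ (by omega), gk _ _ (by omega)]
      ring
    · refine Finset.sum_congr rfl fun k _ => ?_
      rw [add_comm 12 k, fk, fk, hk, hk]
      ring
  rw [h1]
  simp only [sg_mul]
  rw [Finset.sum_sub_distrib, Finset.sum_sub_distrib, ← Finset.mul_sum, ← Finset.mul_sum,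
    ← Nat.cast_sum, ← Nat.cast_sum, ← pc_sum]
  have h2 : ∀ y < 16, ∑ i ∈ Finset.range 4, y / 2 ^ i % 2 = pc y := by decide
  rw [h2 _ (Nat.xor_lt_two_pow (n := 4) hb hb')]
  push_cast
  simp
  ring

/-- the coordinate matrix -/
noncomputable def ZG : Matrix GV (Fin 16) ℝ :=
  fun v i => ((fa i v.1.1 * gb i v.1.2 : ℤ) : ℝ)

theorem ZG_gram : ZG.transpose * ZG = (8008 : ℝ) • (1 : Matrix (Fin 16) (Fin 16) ℝ) := by
  ext i j
  rw [Matrix.mul_apply, Matrix.smul_apply, Matrix.one_apply]
  have h := gram i j i.2 j.2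
  have h2 : ∑ v : GV, ZG.transpose i v * ZG v j =
      ((∑ v : GV, (fa i v.1.1 * fa j v.1.1) * (gb i v.1.2 * gb j v.1.2) : ℤ) : ℝ) := by
    rw [Int.cast_sum]
    refine Finset.sum_congr rfl fun v _ => ?_
    rw [Matrix.transpose_apply]
    unfold ZG
    push_cast
    ring
  rw [h2, h]
  by_cases hij : i = j
  · subst hij; simp
  · have : ¬ (i : ℕ) = (j : ℕ) := fun h => hij (Fin.ext h)
    simp [hij, this]

theorem ZG_dist : distMat G = ZG * (K * ZG.transpose) := by
  ext u v
  rw [Matrix.mul_apply]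
  have h1 : ∀ i : Fin 16, ZG u i * (K * ZG.transpose) i v =
      (if i = 0 then (15 / 4 : ℝ) else -1 / 4) * (ZG u i * ZG v i) := by
    intro i
    unfold K
    rw [Matrix.diagonal_mul, Matrix.transpose_apply]
    ring
  rw [Finset.sum_congr rfl fun i _ => h1 i]
  have h2 : ∀ i : Fin 16, (if i = 0 then (15 / 4 : ℝ) else -1 / 4) * (ZG u i * ZG v i) =
      (if i = 0 then 4 * (ZG u i * ZG v i) else 0) + (-1 / 4) * (ZG u i * ZG v i) := by
    intro i
    split_ifs <;> ring
  rw [Finset.sum_congr rfl fun i _ => h2 i, Finset.sum_add_distrib, ← Finset.mul_sum,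
    Finset.sum_ite_eq' Finset.univ (0 : Fin 16)]
  have h3 : ∀ w : GV, ZG w 0 = 1 := by
    intro w
    unfold ZG fa gb sg
    simp
  have h4 : ∑ i : Fin 16, ZG u i * ZG v i = 16 - 2 * (hd u v : ℝ) := by
    have h5 := inner_eq u.1.1 v.1.1 u.1.2 v.1.2 u.1.2.2 v.1.2.2
    have h6 : ∑ i : Fin 16, ZG u i * ZG v i = ((∑ i ∈ Finset.range 16,
        (fa i u.1.1 * gb i u.1.2) * (fa i v.1.1 * gb i v.1.2) : ℤ) : ℝ) := by
      rw [← Fin.sum_univ_eq_sum_range (fun i => (fa i u.1.1 * gb i u.1.2) *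
        (fa i v.1.1 * gb i v.1.2)) 16, Int.cast_sum]
      refine Finset.sum_congr rfl fun i _ => ?_
      unfold ZG
      push_cast
      ring
    rw [h6, h5]
    unfold hd
    push_cast
    ring
  rw [h4, h3, h3]
  simp only [Finset.mem_univ, if_true]
  have h7 := G_dist u v
  have h8 : (hd u v : ℝ) = 2 * (G.dist u v : ℝ) := by rw [← h7]; push_cast; ring
  unfold distMat
  rw [h8]
  ring

theorem card_GV : Fintype.card GV = 8008 := by
  have h := gram 0 0 (by norm_num) (by norm_num)
  have e : ∀ v : GV, (fa 0 v.1.1 * fa 0 v.1.1) * (gb 0 v.1.2 * gb 0 v.1.2) = 1 := by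
    intro v
    simp [fa, gb, sg]
  rw [Finset.sum_congr rfl fun v _ => e v, Finset.sum_const, Finset.card_univ, nsmul_eq_mul,
    mul_one, if_pos rfl] at h
  have h2 : ((Fintype.card GV : ℕ) : ℤ) = ((8008 : ℕ) : ℤ) := by rw [h]; rfl
  exact Nat.cast_injective h2

end Pool.Agent.R784.DC
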