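import Pool.Agent.R784.DC.Defs

/-!
# The Johnson graph `J(16,6)`: distances and distance-regularity
-/

set_option autoImplicit false

namespace Pool.Agent.R784.DC

open Finset

lemma swap_inter (x y : Finset (Fin 16)) {p q : Fin 16} (hp : p ∈ y) (hq : q ∉ y) :
    (x ∩ insert q (y.erase p)).card + (if p ∈ x then 1 else 0) =
      (x ∩ y).card + (if q ∈ x then 1 else 0) := by
  have hqn : q ∉ (x ∩ y).erase p := fun h => hq (mem_inter.1 (mem_of_mem_erase h)).2
  have h1 : ((x ∩ y).erase p).card + (if p ∈ x then 1 else 0) = (x ∩ y).card := by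
    split_ifs with h
    · rw [card_erase_add_one (mem_inter.2 ⟨h, hp⟩)]
    · rw [erase_eq_of_notMem (fun h' => h (mem_inter.1 h').1), add_zero]
  by_cases hqx : q ∈ x
  · rw [inter_insert_of_mem hqx, inter_erase, card_insert_of_notMem hqn, if_pos hqx]
    omega
  · rw [inter_insert_of_notMem hqx, inter_erase, if_neg hqx]
    omega

lemma swap_card {y : Finset (Fin 16)} (hy : y.card = 6) {p q : Fin 16} (hp : p ∈ y) (hq : q ∉ y) :
    (insert q (y.erase p)).card = 6 := by
  rw [card_insert_of_notMem (fun h => hq (mem_of_mem_erase h)), card_erase_of_mem hp, hy]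

lemma swap_adj (y : JV) {p q : Fin 16} (hp : p ∈ y.1) (hq : q ∉ y.1) :
    J.Adj y ⟨insert q (y.1.erase p), swap_card y.2 hp hq⟩ := by
  change (y.1 ∩ insert q (y.1.erase p)).card = 5
  have := swap_inter y.1 y.1 hp hq
  rw [if_pos hp, if_neg hq, inter_self, y.2] at this
  omega

lemma adj_exists {y z : JV} (h : J.Adj y z) :
    ∃ p ∈ y.1, ∃ q, q ∉ y.1 ∧ z.1 = insert q (y.1.erase p) := by
  have h5 : (y.1 ∩ z.1).card = 5 := h
  have h1 : (y.1 \ z.1).card = 1 := by
    have := card_sdiff_add_card_inter y.1 z.1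
    rw [h5, y.2] at this
    omega
  have h2 : (z.1 \ y.1).card = 1 := by
    have := card_sdiff_add_card_inter z.1 y.1
    rw [inter_comm, h5, z.2] at this
    omega
  obtain ⟨p, hp⟩ := card_eq_one.1 h1
  obtain ⟨q, hq⟩ := card_eq_one.1 h2
  have hp' : ∀ a, (a ∈ y.1 ∧ a ∉ z.1) ↔ a = p := by
    intro a
    rw [← mem_sdiff, hp, mem_singleton]
  have hq' : ∀ a, (a ∈ z.1 ∧ a ∉ y.1) ↔ a = q := by
    intro a
    rw [← mem_sdiff, hq, mem_singleton]
  refine ⟨p, ((hp' p).2 rfl).1, q, ((hq' q).2 rfl).2, ?_⟩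
  ext a
  rw [mem_insert, mem_erase]
  have h3 := hp' a
  have h4 := hq' a
  tauto

lemma inter_le (s u v : JV) (h : J.Adj u v) : (s.1 ∩ u.1).card ≤ (s.1 ∩ v.1).card + 1 := by
  obtain ⟨p, hp, q, hq, hz⟩ := adj_exists h
  have := swap_inter s.1 u.1 hp hq
  rw [← hz] at this
  split_ifs at this <;> omega

lemma walk_bound (s : JV) {u v : JV} (w : J.Walk u v) :
    (s.1 ∩ u.1).card ≤ (s.1 ∩ v.1).card + w.length := by
  induction w with
  | nil => simp
  | cons h w ih =>
    rw [SimpleGraph.Walk.length_cons]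
    have := inter_le s _ _ h
    omega

lemma inter_le_six (s t : JV) : (s.1 ∩ t.1).card ≤ 6 := by
  have := card_le_card (inter_subset_left (s₁ := s.1) (s₂ := t.1))
  rw [s.2] at this
  exact this

lemma exists_walk (s : JV) : ∀ (i : ℕ) (t : JV), (s.1 ∩ t.1).card + i = 6 →
    ∃ w : J.Walk t s, w.length = i := by
  intro i
  induction i with
  | zero =>
    intro t h
    have h1 : s.1 ∩ t.1 = s.1 := eq_of_subset_of_card_le inter_subset_left (by rw [s.2]; omega)
    have h2 : s.1 ⊆ t.1 := by rw [← h1]; exact inter_subset_right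
    have h3 : s = t := Subtype.ext (eq_of_subset_of_card_le h2 (by rw [s.2, t.2]))
    subst h3
    exact ⟨SimpleGraph.Walk.nil, rfl⟩
  | succ i ih =>
    intro t h
    have h1 : (t.1 \ s.1).Nonempty := by
      rw [← card_pos]
      have := card_sdiff_add_card_inter t.1 s.1
      rw [inter_comm, t.2] at this
      omega
    have h2 : (s.1 \ t.1).Nonempty := by
      rw [← card_pos]
      have := card_sdiff_add_card_inter s.1 t.1
      rw [s.2] at this
      omega
    obtain ⟨p, hp⟩ := h1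
    obtain ⟨q, hq⟩ := h2
    rw [mem_sdiff] at hp hq
    have h3 := swap_inter s.1 t.1 hp.1 hq.2
    rw [if_neg hp.2, if_pos hq.1] at h3
    obtain ⟨w, hw⟩ := ih ⟨insert q (t.1.erase p), swap_card t.2 hp.1 hq.2⟩ (by
      change (s.1 ∩ insert q (t.1.erase p)).card + i = 6
      omega)
    exact ⟨SimpleGraph.Walk.cons (swap_adj t hp.1 hq.2) w, by
      rw [SimpleGraph.Walk.length_cons, hw]⟩

lemma J_connected : J.Connected := by
  have : Nonempty JV := ⟨⟨{0, 1, 2, 3, 4, 5}, by decide⟩⟩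
  refine ⟨fun s t => ?_⟩
  obtain ⟨w, _⟩ := exists_walk t (6 - (t.1 ∩ s.1).card) s (by
    have := inter_le_six t s
    omega)
  exact w.reachable

lemma J_dist (s t : JV) : J.dist s t = 6 - (s.1 ∩ t.1).card := by
  apply le_antisymm
  · obtain ⟨w, hw⟩ := exists_walk t (6 - (t.1 ∩ s.1).card) s (by
      have := inter_le_six t s
      omega)
    rw [inter_comm, ← hw]
    exact SimpleGraph.dist_le w
  · obtain ⟨w, hw⟩ := (J_connected s t).exists_walk_length_eq_dist
    have := walk_bound s w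
    rw [inter_self, s.2, hw] at this
    omega

lemma swap_inj (y : Finset (Fin 16)) (S : Finset (Fin 16 × Fin 16))
    (hS : ∀ z ∈ S, z.1 ∈ y ∧ z.2 ∉ y) :
    Set.InjOn (fun z : Fin 16 × Fin 16 => insert z.2 (y.erase z.1)) S := by
  rintro ⟨p, q⟩ h1 ⟨p', q'⟩ h2 h
  obtain ⟨hp, hq⟩ := hS _ h1
  obtain ⟨hp', hq'⟩ := hS _ h2
  simp only at hp hq hp' hq' h
  have h3 : ∀ a, (a = q ∨ (a ≠ p ∧ a ∈ y)) ↔ (a = q' ∨ (a ≠ p' ∧ a ∈ y)) := by
    intro a
    have := Finset.ext_iff.1 h a
    rw [mem_insert, mem_erase, mem_insert, mem_erase] at this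
    exact this
  have hqq : q = q' := by
    rcases (h3 q).1 (Or.inl rfl) with h4 | ⟨_, h4⟩
    · exact h4
    · exact absurd h4 hq
  have hpp : p = p' := by
    by_contra hne
    rcases (h3 p).2 (Or.inr ⟨hne, hp⟩) with h4 | ⟨h4, _⟩
    · exact hq (h4 ▸ hp)
    · exact h4 rfl
  rw [hqq, hpp]

lemma ncard_swaps (y : JV) (S : Finset (Fin 16 × Fin 16)) (hS : ∀ z ∈ S, z.1 ∈ y.1 ∧ z.2 ∉ y.1)
    (Q : JV → Prop) (hQ : ∀ p q (hp : p ∈ y.1) (hq : q ∉ y.1),
      Q ⟨insert q (y.1.erase p), swap_card y.2 hp hq⟩ ↔ (p, q) ∈ S) :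
    {z | J.Adj y z ∧ Q z}.ncard = S.card := by
  rw [← card_image_of_injOn (swap_inj y.1 S hS), ← Set.ncard_coe_finset,
    ← Set.ncard_image_of_injective _ Subtype.val_injective]
  congr 1
  ext z
  simp only [Set.mem_image, Set.mem_ofPred_eq, Finset.coe_image, Finset.mem_coe]
  constructor
  · rintro ⟨z, ⟨hz, hQz⟩, rfl⟩
    obtain ⟨p, hp, q, hq, hpq⟩ := adj_exists hz
    have h1 : z = ⟨insert q (y.1.erase p), swap_card y.2 hp hq⟩ := Subtype.ext hpq
    rw [h1] at hQz
    exact ⟨(p, q), (hQ p q hp hq).1 hQz, hpq.symm⟩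
  · rintro ⟨⟨p, q⟩, hpq, rfl⟩
    obtain ⟨hp, hq⟩ := hS _ hpq
    exact ⟨⟨insert q (y.1.erase p), swap_card y.2 hp hq⟩,
      ⟨swap_adj y hp hq, (hQ p q hp hq).2 hpq⟩, rfl⟩

theorem j1 : S_J1 := by
  refine ⟨J_dist, J_connected, fun i => (6 - i) * (10 - i), fun i => i * i, ?_⟩
  intro x y
  have hxy := inter_le_six x y
  have hsd1 := card_sdiff_add_card_inter x.1 y.1
  have hsd2 := card_sdiff_add_card_inter y.1 x.1
  rw [x.2] at hsd1
  rw [y.2, inter_comm] at hsd2
  constructor
  · rw [ncard_swaps y ((x.1 ∩ y.1) ×ˢ (x.1 ∪ y.1)ᶜ) ?_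
      (fun z => J.dist x z = J.dist x y + 1) ?_]
    · rw [card_product, card_compl, Fintype.card_fin, J_dist]
      have h1 := card_union_add_card_inter x.1 y.1
      rw [x.2, y.2] at h1
      have h2 : (x.1 ∩ y.1).card = 6 - (6 - (x.1 ∩ y.1).card) := by omega
      have h3 : 16 - (x.1 ∪ y.1).card = 10 - (6 - (x.1 ∩ y.1).card) := by omega
      rw [h3]
      conv_lhs => rw [h2]
      congr 3
      omega
    · rintro ⟨p, q⟩ h
      rw [mem_product, mem_inter, mem_compl, mem_union] at h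
      simp only at h
      tauto
    · intro p q hp hq
      rw [J_dist, J_dist, mem_product, mem_inter, mem_compl, mem_union]
      simp only
      have h1 := swap_inter x.1 y.1 hp hq
      have h2 := inter_le_six x ⟨insert q (y.1.erase p), swap_card y.2 hp hq⟩
      simp only at h2
      by_cases hpx : p ∈ x.1 <;> by_cases hqx : q ∈ x.1 <;>
        simp only [hpx, hqx, hp, hq, if_true, if_false, true_and, and_true, false_and, or_false,
          true_or, not_true, not_false_iff, iff_true, iff_false] at h1 ⊢ <;> omega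
  · rw [ncard_swaps y ((y.1 \ x.1) ×ˢ (x.1 \ y.1)) ?_
      (fun z => J.dist x z + 1 = J.dist x y) ?_]
    · rw [card_product, J_dist]
      have h2 : (y.1 \ x.1).card = 6 - (x.1 ∩ y.1).card := by omega
      have h3 : (x.1 \ y.1).card = 6 - (x.1 ∩ y.1).card := by omega
      rw [h2, h3]
    · rintro ⟨p, q⟩ h
      rw [mem_product, mem_sdiff, mem_sdiff] at h
      simp only at h
      tauto
    · intro p q hp hq
      rw [J_dist, J_dist, mem_product, mem_sdiff, mem_sdiff]
      simp only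
      have h1 := swap_inter x.1 y.1 hp hq
      have h2 := inter_le_six x ⟨insert q (y.1.erase p), swap_card y.2 hp hq⟩
      simp only at h2
      by_cases hpx : p ∈ x.1 <;> by_cases hqx : q ∈ x.1 <;>
        simp only [hpx, hqx, hp, hq, if_true, if_false, true_and, and_true, false_and, or_false,
          true_or, not_true, not_false_iff, iff_true, iff_false, and_false] at h1 ⊢ <;> omega

end Pool.Agent.R784.DC
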