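import Pool.Agent.R784.DC.Defs

/-!
# The Johnson graph `J(16,6)`: factorisation of the distance matrix
-/

set_option autoImplicit false

namespace Pool.Agent.R784.DC

open Finset

/-- A Hadamard matrix of order `16`. -/
def hz (i p : Fin 16) : ℤ :=
  (if i.val.testBit 0 && p.val.testBit 0 then -1 else 1) *
  (if i.val.testBit 1 && p.val.testBit 1 then -1 else 1) *
  (if i.val.testBit 2 && p.val.testBit 2 then -1 else 1) *
  (if i.val.testBit 3 && p.val.testBit 3 then -1 else 1)

set_option maxRecDepth 100000 in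
lemma hz_row : ∀ i j : Fin 16, ∑ p, hz i p * hz j p = if i = j then 16 else 0 := by
  decide +kernel

set_option maxRecDepth 100000 in
lemma hz_col : ∀ p q : Fin 16, ∑ i, hz i p * hz i q = if p = q then 16 else 0 := by
  decide +kernel

lemma hz_zero : ∀ p : Fin 16, hz 0 p = 1 := by
  decide +kernel

/-- The real entries. -/
noncomputable def h (i p : Fin 16) : ℝ := (hz i p : ℝ)

lemma h_row (i j : Fin 16) : ∑ p, h i p * h j p = if i = j then 16 else 0 := by
  unfold h
  have := hz_row i j
  exact_mod_cast this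

lemma h_col (p q : Fin 16) : ∑ i, h i p * h i q = if p = q then 16 else 0 := by
  unfold h
  have := hz_col p q
  exact_mod_cast this

lemma h_zero (p : Fin 16) : h 0 p = 1 := by
  unfold h
  rw [hz_zero]
  norm_num

lemma h_sum (i : Fin 16) : ∑ p, h i p = if i = 0 then 16 else 0 := by
  have := h_row i 0
  simpa [h_zero] using this

/-- The number of vertices containing a given set. -/
lemma card_contain (t : Finset (Fin 16)) (ht : t.card ≤ 6) :
    ∑ s : JV, (if t ⊆ s.1 then (1 : ℝ) else 0) = ((16 - t.card).choose (6 - t.card) : ℕ) := by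
  have h1 : ∑ s : JV, (if t ⊆ s.1 then (1 : ℝ) else 0) =
      ∑ s ∈ powersetCard 6 (univ : Finset (Fin 16)), (if t ⊆ s then (1 : ℝ) else 0) := by
    rw [Finset.sum_subtype (powersetCard 6 (univ : Finset (Fin 16)))
      (p := fun s => s.card = 6) (by
        intro s
        rw [mem_powersetCard]
        simp)]
  rw [h1, sum_boole]
  have h2 := card_filter_powersetCard_subset t (univ : Finset (Fin 16)) 6 (subset_univ _) ht
  rw [h2]
  simp

lemma card_total : ∑ _s : JV, (1 : ℝ) = 8008 := by
  have := card_contain ∅ (by simp)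
  simp only [empty_subset, if_true, card_empty] at this
  rw [this]
  norm_num [Nat.choose]

/-- The sum of the entries of the row `i` over a set. -/
noncomputable def e (i : Fin 16) (s : JV) : ℝ := ∑ p, if p ∈ s.1 then h i p else 0

lemma count1 (p : Fin 16) : ∑ s : JV, (if p ∈ s.1 then (1 : ℝ) else 0) = 3003 := by
  have := card_contain {p} (by simp)
  simp only [singleton_subset_iff, card_singleton] at this
  rw [this]
  norm_num [Nat.choose]

lemma count2 (p q : Fin 16) : ∑ s : JV, ((if p ∈ s.1 then (1 : ℝ) else 0) *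
    (if q ∈ s.1 then (1 : ℝ) else 0)) = 1001 + if p = q then 2002 else 0 := by
  by_cases hpq : p = q
  · subst hpq
    rw [if_pos rfl]
    have h1 := count1 p
    have h2 : ∀ s : JV, (if p ∈ s.1 then (1 : ℝ) else 0) * (if p ∈ s.1 then (1 : ℝ) else 0) =
        if p ∈ s.1 then (1 : ℝ) else 0 := by
      intro s
      split_ifs <;> norm_num
    simp only [h2, h1]
    norm_num
  · rw [if_neg hpq]
    have h1 := card_contain {p, q} (by rw [card_pair hpq]; norm_num)
    rw [card_pair hpq] at h1
    have h2 : ∀ s : JV, (if p ∈ s.1 then (1 : ℝ) else 0) * (if q ∈ s.1 then (1 : ℝ) else 0) =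
        if {p, q} ⊆ s.1 then (1 : ℝ) else 0 := by
      intro s
      by_cases hp : p ∈ s.1 <;> by_cases hq : q ∈ s.1 <;> simp [hp, hq, insert_subset_iff]
    simp only [h2, h1]
    norm_num [Nat.choose]

lemma e_eq (i : Fin 16) (s : JV) : e i s = ∑ p, h i p * (if p ∈ s.1 then (1 : ℝ) else 0) := by
  unfold e
  refine sum_congr rfl fun p _ => ?_
  split_ifs <;> simp

lemma sum_e (i : Fin 16) : ∑ s, e i s = if i = 0 then 48048 else 0 := by
  simp only [e_eq]
  rw [sum_comm]
  simp only [← mul_sum, count1, ← sum_mul, h_sum]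
  split_ifs <;> norm_num

lemma sum_ee (i j : Fin 16) (hi : i ≠ 0) :
    ∑ s, e i s * e j s = if i = j then 32032 else 0 := by
  have h1 : ∀ s : JV, e i s * e j s = ∑ p, ∑ q, h i p * h j q *
      ((if p ∈ s.1 then (1 : ℝ) else 0) * (if q ∈ s.1 then (1 : ℝ) else 0)) := by
    intro s
    rw [e_eq, e_eq, sum_mul_sum]
    refine sum_congr rfl fun p _ => sum_congr rfl fun q _ => ?_
    ring
  simp only [h1]
  rw [sum_comm]
  have h2 : ∀ p : Fin 16, ∑ s : JV, ∑ q, h i p * h j q *
      ((if p ∈ s.1 then (1 : ℝ) else 0) * (if q ∈ s.1 then (1 : ℝ) else 0)) =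
      1001 * (h i p * ∑ q, h j q) + 2002 * (h i p * h j p) := by
    intro p
    rw [sum_comm]
    simp only [← mul_sum, count2]
    simp only [mul_add, sum_add_distrib, mul_ite, mul_zero]
    rw [Finset.sum_ite_eq, if_pos (mem_univ _), ← sum_mul, ← mul_sum]
    ring
  simp only [h2]
  rw [sum_add_distrib, ← mul_sum, ← mul_sum, ← sum_mul, h_sum, if_neg hi, h_row]
  split_ifs <;> norm_num

lemma ee_sum (s t : JV) : ∑ i, e i s * e i t = 16 * ((s.1 ∩ t.1).card : ℝ) := by
  have h1 : ∀ i, e i s * e i t = ∑ p, ∑ q, h i p * h i q *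
      ((if p ∈ s.1 then (1 : ℝ) else 0) * (if q ∈ t.1 then (1 : ℝ) else 0)) := by
    intro i
    rw [e_eq, e_eq, sum_mul_sum]
    refine sum_congr rfl fun p _ => sum_congr rfl fun q _ => ?_
    ring
  simp only [h1]
  rw [sum_comm]
  have h2 : ∀ p : Fin 16, ∑ i, ∑ q, h i p * h i q *
      ((if p ∈ s.1 then (1 : ℝ) else 0) * (if q ∈ t.1 then (1 : ℝ) else 0)) =
      16 * (if p ∈ s.1 ∩ t.1 then 1 else 0) := by
    intro p
    rw [sum_comm]
    simp only [← sum_mul, h_col]
    simp only [ite_mul, zero_mul]
    rw [Finset.sum_ite_eq, if_pos (mem_univ _)]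
    by_cases hp : p ∈ s.1 <;> by_cases hq : p ∈ t.1 <;> simp [hp, hq]
  simp only [h2]
  rw [← mul_sum, sum_boole]
  congr 2
  congr 1
  ext a
  simp

lemma e_zero (s : JV) : e 0 s = 6 := by
  unfold e
  simp only [h_zero]
  rw [sum_boole]
  have : (univ.filter fun p => p ∈ s.1) = s.1 := by
    ext a; simp
  rw [this, s.2]
  norm_num

/-- The matrix `Z`. -/
noncomputable def Zm : Matrix JV (Fin 16) ℝ := fun s i => if i = 0 then 1 else e i s / 2

theorem j2 : S_J2 := by
  intro hd
  refine ⟨Zm, ?_, ?_⟩
  · ext i j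
    rw [Matrix.mul_apply, Matrix.smul_apply, Matrix.one_apply]
    simp only [Matrix.transpose_apply, Zm, smul_eq_mul]
    by_cases hi : i = 0
    · by_cases hj : j = 0
      · subst hi hj
        simp only [if_true, mul_one]
        exact card_total
      · subst hi
        simp only [if_true, if_neg hj, one_mul, if_neg (Ne.symm hj), mul_zero]
        rw [← sum_div, sum_e, if_neg hj, zero_div]
    · by_cases hj : j = 0
      · subst hj
        simp only [if_true, if_neg hi, mul_one, mul_zero]
        rw [← sum_div, sum_e, if_neg hi, zero_div]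
      · simp only [if_neg hi, if_neg hj]
        have h1 : ∀ s : JV, e i s / 2 * (e j s / 2) = (1 / 4) * (e i s * e j s) := by
          intro s
          ring
        simp only [h1]
        rw [← mul_sum, sum_ee i j hi]
        split_ifs <;> norm_num
  · ext s t
    unfold distMat
    rw [hd s t, Matrix.mul_apply]
    have h1 : ∀ i, Zm s i * (K * Zm.transpose) i t =
        (if i = 0 then (15 / 4 + 9 / 4 : ℝ) else 0) - (1 / 16) * (e i s * e i t) := by
      intro i
      unfold K
      rw [Matrix.diagonal_mul, Matrix.transpose_apply]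
      unfold Zm
      by_cases hi : i = 0
      · subst hi
        simp only [if_true, e_zero]
        norm_num
      · simp only [if_neg hi]
        ring
    simp only [h1]
    rw [sum_sub_distrib, ← mul_sum, ee_sum, Finset.sum_ite_eq', if_pos (mem_univ _)]
    have h2 : (s.1 ∩ t.1).card ≤ 6 := by
      have := card_le_card (inter_subset_left (s₁ := s.1) (s₂ := t.1))
      rw [s.2] at this
      exact this
    rw [Nat.cast_sub h2]
    push_cast
    ring

end Pool.Agent.R784.DC
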