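import Pool.Agent.R784.DC.Defs

set_option autoImplicit false

/-! The spectrum lemma. -/

namespace Pool.Agent.R784.DC

open Polynomial in
theorem charpoly_factor {W n : Type} [Fintype W] [DecidableEq W] [Fintype n] [DecidableEq n]
    (M M' : Matrix n n ℝ) (c : ℝ) (Z : Matrix W n ℝ)
    (hZ : Z.transpose * Z = c • (1 : Matrix n n ℝ)) (hM : M' = c • M) :
    (X : ℝ[X]) ^ Fintype.card n * (Z * (M * Z.transpose)).charpoly =
      X ^ Fintype.card W * M'.charpoly := by
  have h1 : M * Z.transpose * Z = M' := by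
    rw [hM, Matrix.mul_assoc, hZ, Matrix.mul_smul, Matrix.mul_one]
  have h := Matrix.charpoly_mul_comm' Z (M * Z.transpose)
  rw [h1] at h
  exact h

open Polynomial in
/-- two matrices with such factorisations have the same characteristic polynomial -/
theorem charpoly_eq {W W' n : Type} [Fintype W] [DecidableEq W] [Fintype W'] [DecidableEq W']
    [Fintype n] [DecidableEq n] (M : Matrix n n ℝ)
    (hcard : Fintype.card W = Fintype.card W') (c : ℝ) (Z : Matrix W n ℝ)
    (hZ : Z.transpose * Z = c • (1 : Matrix n n ℝ)) (Z' : Matrix W' n ℝ)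
    (hZ' : Z'.transpose * Z' = c • (1 : Matrix n n ℝ)) :
    (Z * (M * Z.transpose)).charpoly = (Z' * (M * Z'.transpose)).charpoly := by
  have h1 := charpoly_factor M (c • M) c Z hZ rfl
  have h2 := charpoly_factor M (c • M) c Z' hZ' rfl
  rw [hcard] at h1
  have h3 := h1.trans h2.symm
  have h4 : (X : ℝ[X]) ^ Fintype.card n ≠ 0 := pow_ne_zero _ X_ne_zero
  exact mul_left_cancel₀ h4 h3

end Pool.Agent.R784.DC
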